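import Pool.Agent.Q54.BZ.One

/-!
# The regulators of a regular model and the height pairings of weight zero
-/

set_option autoImplicit false

namespace Q54.BZ

open CategoryTheory AlgebraicGeometry Q54.CU

/-- The relation between the height pairings of weight zero and the groups of the question, for a
regular connected scheme `X` of dimension `d`, proper and flat over `ℤ`. The group
`H^{2 d - 1 - i}(X, ℚ(d)) ⊗ ℝ` is `CH_0(X, i + 1) ⊗ ℝ = (D (i + 1) 0 X).A`; `E i` is the Deligne
cohomology `H^{2 d - 1 - i}_𝒟(X_{/ℝ}, ℝ(d))`, `C` is `CH^0(X_ℚ)^* ⊗ ℝ` and `eps` the map to `C`; and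
`comp i` is the dual of the boundary map from Deligne cohomology to Arakelov motivic cohomology. Since
`H^i(X, ℚ(0))` is zero for `i ≠ 0` it is bijective for `i ≥ 1`, and for `i = 0` its image is the kernel
of `eps`. The groups in degrees `m ≤ 0` are zero (`CH_0(X)` is finite). -/
structure Comparison (D : ℤ → ℤ → SchO ℤ → RegSp) (X : SchO ℤ) where
  E : ℕ → Type
  C : Type
  [groupE : ∀ i, AddCommGroup (E i)]
  [modE : ∀ i, Module ℝ (E i)]
  [groupC : AddCommGroup C]
  [modC : Module ℝ C]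
  eps : E 0 →ₗ[ℝ] C
  comp : ∀ i : ℕ, (D (i + 1) 0 X).H →ₗ[ℝ] E i
  comp_bij : ∀ i, 1 ≤ i → Function.Bijective (comp i)
  comp_inj : Function.Injective (comp 0)
  comp_exact : Function.Exact (comp 0) eps
  eps_surj : Function.Surjective eps
  lowA : ∀ m : ℤ, m ≤ 0 → Subsingleton (D m 0 X).A
  lowH : ∀ m : ℤ, m ≤ 0 → Subsingleton (D m 0 X).H

attribute [instance] Comparison.groupE Comparison.modE Comparison.groupC Comparison.modC

variable {D : ℤ → ℤ → SchO ℤ → RegSp}

/-- The regulator `r_i : H^{2 d - 1 - i}(X, ℚ(d)) ⊗ ℝ → H^{2 d - 1 - i}_𝒟(X_{/ℝ}, ℝ(d))`. -/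
def Comparison.r {X : SchO ℤ} (R : Comparison D X) (i : ℕ) : (D (i + 1) 0 X).A →ₗ[ℝ] R.E i :=
  R.comp i ∘ₗ (D (i + 1) 0 X).reg

/-- The assertion of the question for `X`: the map `r_i` is bijective for `i ≥ 1`, and there is the
exact sequence `0 → H^{2 d - 1}(X, ℚ(d)) ⊗ ℝ → E 0 → C → 0`. -/
structure RegulatorIso {X : SchO ℤ} (R : Comparison D X) : Prop where
  bijective : ∀ i, 1 ≤ i → Function.Bijective (R.r i)
  injective : Function.Injective (R.r 0)
  exact : Function.Exact (R.r 0) R.eps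
  surjective : Function.Surjective R.eps

/-- The assertion of the question is the perfectness of the pairings of weight zero. -/
theorem iso_iff {X : SchO ℤ} (R : Comparison D X) : RegulatorIso R ↔ PerfectIn D 0 X := by
  have h0 : ∀ i : ℕ, (R.r i : (D (i + 1) 0 X).A → R.E i) = R.comp i ∘ (D (i + 1) 0 X).reg :=
    fun i => rfl
  constructor
  · intro h m
    rcases le_or_gt m 0 with hm | hm
    · have h1 := R.lowA m hm
      have h2 := R.lowH m hm
      exact ⟨fun x y _ => Subsingleton.elim x y, fun y => ⟨0, Subsingleton.elim _ _⟩⟩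
    · obtain ⟨i, rfl⟩ : ∃ i : ℕ, m = i + 1 := ⟨(m - 1).toNat, by omega⟩
      rcases Nat.eq_zero_or_pos i with rfl | hi
      · refine ⟨?_, fun y => ?_⟩
        · have h1 := h.injective
          rw [h0 0] at h1
          exact h1.of_comp
        · obtain ⟨x, hx⟩ := (h.exact (R.comp 0 y)).1 ((R.comp_exact _).2 ⟨y, rfl⟩)
          exact ⟨x, R.comp_inj hx⟩
      · have h1 := h.bijective i hi
        rw [h0 i] at h1
        exact (Function.Bijective.of_comp_iff' (R.comp_bij i hi) _).1 h1
  · intro h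
    refine ⟨fun i hi => ?_, ?_, ?_, R.eps_surj⟩
    · rw [h0 i]
      exact (R.comp_bij i hi).comp (h _)
    · rw [h0 0]
      exact R.comp_inj.comp (h _).injective
    · intro y
      rw [R.comp_exact y]
      constructor
      · rintro ⟨z, rfl⟩
        obtain ⟨x, rfl⟩ := (h ((0 : ℕ) + 1)).surjective z
        exact ⟨x, rfl⟩
      · rintro ⟨x, rfl⟩
        exact ⟨_, rfl⟩

/-- The hypersurface `E_q` is affine and smooth over `ℤ` and its equation has degree at most
three. -/
def IsSmoothAffineCubic {M r : ℕ} (q : Fin (r + 1) → MvPolynomial (Fin M) ℤ) : Prop :=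
  IsArith (hypO q 1) ∧ Smooth (hypO q 1).hom ∧ IsAffine (hypO q 1).left ∧
    (hypPoly q 1).totalDegree ≤ 3

theorem isSmoothAffineCubic {M r : ℕ} (q : Fin (r + 1) → MvPolynomial (Fin M) ℤ)
    (hq : ∀ j, (q j).totalDegree ≤ 2) : IsSmoothAffineCubic q :=
  ⟨isArith_hyp q 1, smooth_hyp q, (inferInstance : IsAffine (HypSch q (1 : ℤ))),
    totalDegree_hypPoly q 1 hq⟩

end Q54.BZ
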