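import Pool.Agent.Q54.CU.KU

/-!
# Regulators of arithmetic schemes: definitions
-/

set_option autoImplicit false

namespace Q54.BZ

open CategoryTheory AlgebraicGeometry Pool.Agent.Y116.UV Q54.CU

/-- Two real vector spaces and a linear map. In the application `A` is the motivic Borel-Moore homology
`CH_j(X, i - 2 j) ⊗ ℝ` of an arithmetic scheme `X`, `H` is the dual of the Arakelov motivic cohomology
with compact supports of `X` in degree `i` and weight `j`, and `reg` is the regulator (height pairing). -/
structure RegSp where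
  A : Type
  H : Type
  [groupA : AddCommGroup A]
  [modA : Module ℝ A]
  [groupH : AddCommGroup H]
  [modH : Module ℝ H]
  reg : A →ₗ[ℝ] H

attribute [instance] RegSp.groupA RegSp.modA RegSp.groupH RegSp.modH

/-- The regulator is bijective. -/
def RegSp.IsPerfect (M : RegSp) : Prop := Function.Bijective M.reg

/-- Maps which commute with the regulators. -/
structure RegMap (M N : RegSp) where
  a : M.A →ₗ[ℝ] N.A
  h : M.H →ₗ[ℝ] N.H
  reg : ∀ x, h (M.reg x) = N.reg (a x)

/-- Exactness for both vector spaces. -/
def IsExactSp {M N P : RegSp} (f : RegMap M N) (g : RegMap N P) : Prop :=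
  Function.Exact f.a g.a ∧ Function.Exact f.h g.h

/-- Isomorphic objects. -/
def IsoSp (M N : RegSp) : Prop :=
  ∃ f : RegMap M N, Function.Bijective f.a ∧ Function.Bijective f.h

/-- `M` is a direct summand of `N`. -/
def SummandSp (M N : RegSp) : Prop :=
  ∃ (s : RegMap M N) (r : RegMap N M), (∀ x, r.a (s.a x) = x) ∧ ∀ x, r.h (s.h x) = x

/-- A long exact sequence `… → U_{i+1} → Z_i → X_i → U_i → Z_{i-1} → …`. -/
def LongSp (Z X U : ℤ → RegSp) : Prop :=
  ∃ (a : ∀ i, RegMap (Z i) (X i)) (b : ∀ i, RegMap (X i) (U i))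
    (d : ∀ i, RegMap (U (i + 1)) (Z i)),
    ∀ i, IsExactSp (a i) (b i) ∧ IsExactSp (b (i + 1)) (d i) ∧ IsExactSp (d i) (a i)

/-- The standard properties of the regulators `D i j X` (degree `i`, weight `j`) of the separated
schemes `X` of finite type over `ℤ`:

* `iso`: invariance under isomorphisms;
* `localization`: the long exact localization sequences, compatible with the regulators;
* `bundle`: homotopy invariance for the affine bundles `Spec A[w_1, …, w_m] / (∑ f_l w_l - 1) → U`
  of Jouanolou, with fibres of dimension `m - 1`, where `U` is the complement of `f = 0` in `Spec A`;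
* `torus`: the groups of `X` are direct summands of those of `X × 𝔾_m`. -/
structure IsBeilinsonTheory (D : ℤ → ℤ → Sch ℤ → RegSp) : Prop where
  iso : ∀ {X Y : Sch ℤ}, FT True X → Nonempty (X ≅ Y) → ∀ i j, IsoSp (D i j X) (D i j Y)
  localization : ∀ {Z X U : Sch ℤ} (f : Z ⟶ X) (g : U ⟶ X), FT True X → IsTriple f g →
    ∀ j, LongSp (fun i => D i j Z) (fun i => D i j X) fun i => D i j U
  bundle : ∀ (A : Type) [CommRing A] [Algebra ℤ A] [Algebra.FiniteType ℤ A] (m : ℕ)
    (f : Fin m → A) (U : Sch ℤ), IsNonzeroLocus f U →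
    ∀ i j, IsoSp (D i j U) (D (i + 2 * (m - 1 : ℕ)) (j + (m - 1 : ℕ)) (jouS ℤ f))
  torus : ∀ (A : Type) [CommRing A] [Algebra ℤ A] [Algebra.FiniteType ℤ A],
    ∀ i j, SummandSp (D i j (aff ℤ A)) (D (i + 2) (j + 1) (torS ℤ A))

/-- All regulators of `X` are bijective: the height pairings between the motivic Borel-Moore homology
and the Arakelov motivic cohomology with compact supports of `X` are perfect. -/
def Perfect (D : ℤ → ℤ → Sch ℤ → RegSp) (X : Sch ℤ) : Prop :=
  ∀ i j, (D i j X).IsPerfect

end Q54.BZ
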