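import Pool.Agent.Q54.BZ.Defs
import Pool.Agent.Z125.UN.Sym

/-!
# The property `Perfect` is closed under closed-open decompositions
-/

set_option autoImplicit false

namespace Q54.BZ

open CategoryTheory AlgebraicGeometry Pool.Agent.Y116.UV Pool.Agent.Z125.UN Q54.CU

/-- The five lemma. -/
theorem five {M1 M2 M3 M4 M5 : RegSp} (f1 : RegMap M1 M2) (f2 : RegMap M2 M3)
    (f3 : RegMap M3 M4) (f4 : RegMap M4 M5) (e2 : IsExactSp f1 f2) (e3 : IsExactSp f2 f3)
    (e4 : IsExactSp f3 f4) (h1 : M1.IsPerfect) (h2 : M2.IsPerfect) (h4 : M4.IsPerfect)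
    (h5 : M5.IsPerfect) : M3.IsPerfect := by
  constructor
  · rw [injective_iff_map_eq_zero]
    intro a3 ha
    have h6 : f3.a a3 = 0 := by
      apply h4.injective
      rw [map_zero, ← f3.reg, ha, map_zero]
    obtain ⟨a2, rfl⟩ := (e3.1 a3).1 h6
    have h7 : f2.h (M2.reg a2) = 0 := by rw [f2.reg, ha]
    obtain ⟨y1, hy1⟩ := (e2.2 _).1 h7
    obtain ⟨a1, rfl⟩ := h1.surjective y1
    have h8 : f1.a a1 = a2 := by
      apply h2.injective
      rw [← f1.reg, hy1]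
    rw [← h8]
    exact (e2.1 _).2 ⟨a1, rfl⟩
  · intro x3
    obtain ⟨a4, ha4⟩ := h4.surjective (f3.h x3)
    have h6 : f4.a a4 = 0 := by
      apply h5.injective
      rw [map_zero, ← f4.reg, ha4]
      exact (e4.2 _).2 ⟨x3, rfl⟩
    obtain ⟨a3, rfl⟩ := (e4.1 a4).1 h6
    have h7 : f3.h (x3 - M3.reg a3) = 0 := by rw [map_sub, f3.reg, ha4, sub_self]
    obtain ⟨y2, hy2⟩ := (e3.2 _).1 h7
    obtain ⟨a2, rfl⟩ := h2.surjective y2
    refine ⟨a3 + f2.a a2, ?_⟩
    rw [map_add, ← f2.reg, hy2]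
    abel

lemma perf_of_iso {M N : RegSp} (h : IsoSp M N) (hM : M.IsPerfect) : N.IsPerfect := by
  obtain ⟨f, h1, h2⟩ := h
  have h3 : (N.reg : N.A → N.H) ∘ f.a = f.h ∘ M.reg := funext fun x => (f.reg x).symm
  have h4 : Function.Bijective ((N.reg : N.A → N.H) ∘ f.a) := by
    rw [h3]
    exact h2.comp hM
  exact (Function.Bijective.of_comp_iff _ h1).1 h4

lemma perf_of_iso' {M N : RegSp} (h : IsoSp M N) (hN : N.IsPerfect) : M.IsPerfect := by
  obtain ⟨f, h1, h2⟩ := h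
  have h3 : (N.reg : N.A → N.H) ∘ f.a = f.h ∘ M.reg := funext fun x => (f.reg x).symm
  have h4 : Function.Bijective ((f.h : M.H → N.H) ∘ M.reg) := by
    rw [← h3]
    exact hN.comp h1
  exact (Function.Bijective.of_comp_iff' h2 _).1 h4

lemma perf_of_summand {M N : RegSp} (h : SummandSp M N) (hN : N.IsPerfect) : M.IsPerfect := by
  obtain ⟨s, r, h1, h2⟩ := h
  constructor
  · intro a b hab
    have h3 : s.a a = s.a b := by
      apply hN.injective
      rw [← s.reg, ← s.reg, hab]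
    rw [← h1 a, h3, h1]
  · intro x
    obtain ⟨b, hb⟩ := hN.surjective (s.h x)
    exact ⟨r.a b, by rw [← r.reg, hb, h2]⟩

variable {D : ℤ → ℤ → Sch ℤ → RegSp}

/-- The property `Perfect` has the closure properties `Bnd`. -/
theorem bnd_perfect (hD : IsBeilinsonTheory D) (hb : Perfect D (aff ℤ ℤ)) : Bnd True (Perfect D) where
  iso hX e h i j := perf_of_iso (hD.iso hX e i j) (h i j)
  total f g hX ht hZ hU i j := by
    obtain ⟨a, b, d, h⟩ := hD.localization f g hX ht j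
    obtain ⟨i, rfl⟩ : ∃ l : ℤ, i = l + 1 := ⟨i - 1, by ring⟩
    exact five (d (i + 1)) (a (i + 1)) (b (i + 1)) (d i) (h _).2.2 (h _).1 (h _).2.1 (hU _ _)
      (hZ _ _) (hU _ _) (hZ _ _)
  opened f g hX ht hZ hX' i j := by
    obtain ⟨a, b, d, h⟩ := hD.localization f g hX ht j
    obtain ⟨i, rfl⟩ : ∃ l : ℤ, i = l + 1 := ⟨i - 1, by ring⟩
    exact five (a (i + 1)) (b (i + 1)) (d i) (a i) (h _).1 (h _).2.1 (h _).2.2 (hZ _ _)
      (hX' _ _) (hZ _ _) (hX' _ _)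
  closed f g hX ht hX' hU i j := by
    obtain ⟨a, b, d, h⟩ := hD.localization f g hX ht j
    exact five (b (i + 1)) (d i) (a i) (b i) (h _).2.1 (h _).2.2 (h _).1 (hX' _ _)
      (hU _ _) (hX' _ _) (hU _ _)
  space n i j := by
    have h1 := hD.bundle ℤ (n + 1) (f1 ℤ n) (aff ℤ ℤ) ⟨𝟙 _, inferInstance, range_id n⟩
      (i - 2 * (n + 1 - 1 : ℕ)) (j - (n + 1 - 1 : ℕ))
    rw [sub_add_cancel, sub_add_cancel] at h1
    exact perf_of_iso (hD.iso (ft_aff True) ⟨(affIso (jouOne ℤ n)).symm⟩ i j)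
      (perf_of_iso h1 (hb _ _))
  jouanolou A _ _ _ m f U l hl hr h i j :=
    perf_of_iso' (hD.bundle A m f U ⟨l, hl, hr⟩ i j) (h _ _)
  torus A _ _ _ h i j := perf_of_summand (hD.torus A i j) (h _ _)
  bundle A _ _ _ m f U l hl hr h i j := by
    have h1 := hD.bundle A m f U ⟨l, hl, hr⟩ (i - 2 * (m - 1 : ℕ)) (j - (m - 1 : ℕ))
    rw [sub_add_cancel, sub_add_cancel] at h1
    exact perf_of_iso h1 (h _ _)

end Q54.BZ
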