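import Pool.Agent.Q54.BZ.Five
import Pool.Agent.Q54.CU.Smo
import Pool.Agent.Q54.CU.RgDefs

/-!
# Height pairings in one weight and smooth affine cubic hypersurfaces over `ℤ`
-/

set_option autoImplicit false

namespace Q54.BZ

open CategoryTheory AlgebraicGeometry Q54.CU

/-- The scheme `X` is separated and of finite type over `ℤ`. -/
structure IsArith (X : SchO ℤ) : Prop where
  ft : IsFT X
  sep : IsSeparated X.hom

/-- The spectrum of `ℤ`. -/
noncomputable def ptZ : SchO ℤ := Over.mk (𝟙 _)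

/-- There is an affine bundle over `X` with affine total space. By Jouanolou and Thomason this is
true for all quasi-projective schemes and for all regular separated schemes. -/
def HasTorsorZ (X : SchO ℤ) : Prop :=
  ∃ (T : SchO ℤ) (r : ℕ) (p : T ⟶ X), IsArith T ∧ IsAffine T.left ∧ IsAffineBundle r p.left

/-- The standard properties of the regulators `D m n X` (degree `m`, weight `n`) of the separated
schemes `X` of finite type over `ℤ`: the long exact localization sequences, compatible with the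
regulators, and homotopy invariance for affine bundles. -/
structure IsHeightTheory (D : ℤ → ℤ → SchO ℤ → RegSp) : Prop where
  localization : ∀ {Z X U : SchO ℤ} (i : Z ⟶ X) (j : U ⟶ X), IsArith X → IsDecomp i j →
    ∀ n, LongSp (fun m => D m n Z) (fun m => D m n X) fun m => D m n U
  homotopy : ∀ {E B : SchO ℤ} (r : ℕ) (p : E ⟶ B), IsArith E → IsArith B →
    IsAffineBundle r p.left → ∀ m n, IsoSp (D m n B) (D (m + 2 * r) (n + r) E)

/-- All regulators of weight `n` are bijective. -/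
def PerfectIn (D : ℤ → ℤ → SchO ℤ → RegSp) (n : ℤ) (X : SchO ℤ) : Prop :=
  ∀ m, (D m n X).IsPerfect

lemma IsArith.of_closed {Z X : SchO ℤ} (i : Z ⟶ X) (hi : IsClosedImmersion i.left)
    (h : IsArith X) : IsArith Z := by
  refine ⟨h.ft.of_closed i hi, ?_⟩
  have := h.sep
  rw [← Over.w i]
  infer_instance

lemma IsArith.of_open {U X : SchO ℤ} (j : U ⟶ X) (hj : IsOpenImmersion j.left) (h : IsArith X) :
    IsArith U := by
  refine ⟨h.ft.of_open j hj, ?_⟩
  have := h.sep
  rw [← Over.w j]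
  infer_instance

lemma IsArith.of_affine {X : SchO ℤ} (hX : IsFT X) (ha : IsAffine X.left) : IsArith X :=
  ⟨hX, inferInstance⟩

lemma isArith_pt : IsArith ptZ :=
  ⟨⟨(inferInstance : LocallyOfFiniteType (𝟙 (Spec (CommRingCat.of ℤ)))),
    (inferInstance : QuasiCompact (𝟙 (Spec (CommRingCat.of ℤ))))⟩,
    (inferInstance : IsSeparated (𝟙 (Spec (CommRingCat.of ℤ))))⟩

lemma isArith_aff {M : ℕ} : IsArith (affO ℤ M) :=
  ⟨isFT_affO, (inferInstance : IsSeparated (affStr ℤ M))⟩

lemma isArith_hyp {M r : ℕ} (q : Fin (r + 1) → MvPolynomial (Fin M) ℤ) (t : ℤ) :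
    IsArith (hypO q t) :=
  .of_affine (isFT_hypO q t) (inferInstance : IsAffine (HypSch q t))

lemma isArith_cpl {M r : ℕ} (q : Fin (r + 1) → MvPolynomial (Fin M) ℤ) : IsArith (cplO q) :=
  ⟨isFT_cplO q, (inferInstance : IsSeparated ((compl q).ι ≫ affStr ℤ M))⟩

variable {D : ℤ → ℤ → SchO ℤ → RegSp} (hD : IsHeightTheory D)

include hD

lemma perf_bundle {E B : SchO ℤ} (r : ℕ) (p : E ⟶ B) (hE : IsArith E) (hB : IsArith B)
    (hp : IsAffineBundle r p.left) (n : ℤ) : PerfectIn D (n + r) E ↔ PerfectIn D n B := by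
  constructor
  · exact fun h m => perf_of_iso' (hD.homotopy r p hE hB hp m n) (h _)
  · intro h m
    have h1 := hD.homotopy r p hE hB hp (m - 2 * r) n
    rw [sub_add_cancel] at h1
    exact perf_of_iso h1 (h _)

lemma perf_total {Z X U : SchO ℤ} (i : Z ⟶ X) (j : U ⟶ X) (hX : IsArith X) (hd : IsDecomp i j)
    {n : ℤ} (hZ : PerfectIn D n Z) (hU : PerfectIn D n U) : PerfectIn D n X := by
  intro m
  obtain ⟨a, b, d, h⟩ := hD.localization i j hX hd n
  obtain ⟨m, rfl⟩ : ∃ l : ℤ, m = l + 1 := ⟨m - 1, by ring⟩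
  exact five (d (m + 1)) (a (m + 1)) (b (m + 1)) (d m) (h _).2.2 (h _).1 (h _).2.1 (hU _) (hZ _)
    (hU _) (hZ _)

lemma perf_open {Z X U : SchO ℤ} (i : Z ⟶ X) (j : U ⟶ X) (hX : IsArith X) (hd : IsDecomp i j)
    {n : ℤ} (hZ : PerfectIn D n Z) (hX' : PerfectIn D n X) : PerfectIn D n U := by
  intro m
  obtain ⟨a, b, d, h⟩ := hD.localization i j hX hd n
  obtain ⟨m, rfl⟩ : ∃ l : ℤ, m = l + 1 := ⟨m - 1, by ring⟩
  exact five (a (m + 1)) (b (m + 1)) (d m) (a m) (h _).1 (h _).2.1 (h _).2.2 (hZ _) (hX' _)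
    (hZ _) (hX' _)

lemma perf_closed {Z X U : SchO ℤ} (i : Z ⟶ X) (j : U ⟶ X) (hX : IsArith X) (hd : IsDecomp i j)
    {n : ℤ} (hX' : PerfectIn D n X) (hU : PerfectIn D n U) : PerfectIn D n Z := by
  intro m
  obtain ⟨a, b, d, h⟩ := hD.localization i j hX hd n
  exact five (b (m + 1)) (d m) (a m) (b m) (h _).2.1 (h _).2.2 (h _).1 (hX' _) (hU _) (hX' _)
    (hU _)

variable (point : ∀ n, PerfectIn D n ptZ)

include point

lemma perf_aff (M : ℕ) (n : ℤ) : PerfectIn D n (affO ℤ M) := by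
  let p : affO ℤ M ⟶ ptZ := Over.homMk (affStr ℤ M) (by
    change affStr ℤ M ≫ 𝟙 _ = affStr ℤ M
    rw [Category.comp_id])
  have h1 := perf_bundle hD M p isArith_aff isArith_pt (affStr_bundle ℤ M) (n - M)
  rw [sub_add_cancel] at h1
  exact h1.2 (point _)

/-- **One closed subscheme of the affine space and one hypersurface.** -/
theorem perf_cubic {M r : ℕ} (q : Fin (r + 1) → MvPolynomial (Fin M) ℤ) {X : SchO ℤ}
    (i : X ⟶ affO ℤ M) (hd : IsDecomp i (cplInc q)) (n : ℤ) :
    PerfectIn D (n + r) (hypO q 1) ↔ PerfectIn D n X := by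
  rw [perf_bundle hD r (hypO_to q) (isArith_hyp q 1) (isArith_cpl q) (hypO_to_bundle q) n]
  exact ⟨perf_closed hD i (cplInc q) isArith_aff hd (perf_aff hD point M n),
    fun h => perf_open hD i (cplInc q) isArith_aff hd h (perf_aff hD point M n)⟩

/-- **One scheme and one hypersurface.** -/
theorem perf_scheme {X : SchO ℤ} (hX : IsArith X) (hT : HasTorsorZ X) :
    ∃ (M r s : ℕ) (q : Fin (r + 1) → MvPolynomial (Fin M) ℤ), (∀ j, (q j).totalDegree ≤ 2) ∧
      ∀ n : ℤ, PerfectIn D (n + s + r) (hypO q 1) ↔ PerfectIn D n X := by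
  obtain ⟨T, s, p, hT, ha, hp⟩ := hT
  obtain ⟨M, r, q, i, -, hq, hd⟩ := exists_decomp T hT.ft ha 0
  refine ⟨M, r, s, q, hq, fun n => ?_⟩
  rw [perf_cubic hD point q i hd]
  exact perf_bundle hD s p hT hX hp n

/-- **All schemes and the hypersurfaces.** -/
theorem perf_all (n : ℤ) : List.TFAE
    [∀ X : SchO ℤ, IsArith X → PerfectIn D n X,
      ∀ X : SchO ℤ, IsArith X → IsAffine X.left → PerfectIn D n X,
      ∀ (M r : ℕ) (q : Fin (r + 1) → MvPolynomial (Fin M) ℤ), (∀ j, (q j).totalDegree ≤ 2) →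
        PerfectIn D (n + r) (hypO q 1)] := by
  tfae_have 1 → 2 := fun h X hX _ => h X hX
  tfae_have 2 → 1 := by
    intro h X hX
    have h1 := devissage (S := Spec (CommRingCat.of ℤ)) (fun X => IsArith X → PerfectIn D n X)
      (fun i j _ hd hZ hU hX => perf_total hD i j hX hd (hZ (IsArith.of_closed i hd.closed hX))
        (hU (IsArith.of_open j hd.opn hX))) (fun X _ ha hX => h X hX ha) X hX.ft
    exact h1 hX
  tfae_have 3 → 2 := by
    intro h X hX ha
    obtain ⟨M, r, q, i, -, hq, hd⟩ := exists_decomp X hX.ft ha 0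
    exact (perf_cubic hD point q i hd n).1 (h M r q hq)
  tfae_have 1 → 3 := by
    intro h M r q _
    rw [perf_bundle hD r (hypO_to q) (isArith_hyp q 1) (isArith_cpl q) (hypO_to_bundle q) n]
    exact h _ (isArith_cpl q)
  tfae_finish

end Q54.BZ
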